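import Pool.Agent.Y413.RA.Col

/-!
# Finite square representations of `33_65` and of its versions with `r` flexible atoms

For `r ≥ 1` consider the integral symmetric relation algebra with atoms `1', a_1, …, a_r, b, c`
whose forbidden diversity cycles are exactly `ccc`, `bcc` and `bbc`, so that `a_1, …, a_r` are
flexible; for `r = 1` it is `33_65`. For all large `k` (for `r = 1`: for all `k ≥ 3`) it has a square
representation on a set with `2 k (3k choose k)` elements.

The points are the pairs `(T, x)` with `T` a `k`-subset of a `3k`-element set and `x` an element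
outside `T`. Two points `(T, x)`, `(S, y)` get the colour

* `c`, if `T` and `S` are disjoint and either `x = y`, or `x` lies in `S` and `y` lies in `T`;
* `b`, if `x` lies in `S`, `y` lies in `T` and `T`, `S` meet, or if `T`, `S` are disjoint, `x` and
  `y` are different, `x` is not in `S` and `y` is not in `T`;
* one of the colours `a_1, …, a_r`, chosen at random, otherwise (for distinct points).

No edge of colour `c` lies in a triangle whose other edges have colours `b` or `c`, because three
pairwise disjoint `k`-sets cover the ground set. Every pair of points has at least `2 ^ (k - 3)`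
witnesses for each of the cycles with an `a_i`.
-/

set_option autoImplicit false

namespace Pool.Agent.Results.MP_793ea6_al.ManyFlexibleAtoms

open Pool.Agent.Y413.RA

/-- The atoms `1', a_1, …, a_r, b, c`; `one` is the identity atom. -/
inductive Atom (r : ℕ)
  | one
  | a (i : Fin r)
  | b
  | c

open Atom

/-- A cycle of diversity atoms is forbidden iff its multiset of atoms is
`{c,c,c}`, `{b,c,c}` or `{b,b,c}`. -/
def Forbidden {r : ℕ} (x y z : Atom r) : Prop :=
  ({x, y, z} : Multiset (Atom r)) = {c, c, c} ∨ ({x, y, z} : Multiset (Atom r)) = {b, c, c} ∨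
    ({x, y, z} : Multiset (Atom r)) = {b, b, c}

/-- `Below x y z` says that the atom `z` lies below the composition of the atoms `x` and `y`:
the identity atom is neutral, the identity lies below `x ; y` iff `x = y` (all atoms are
symmetric), and a diversity cycle is allowed iff it is not forbidden. -/
def Below {r : ℕ} (x y z : Atom r) : Prop :=
  (x = one ∧ y = z) ∨ (y = one ∧ x = z) ∨ (z = one ∧ x = y) ∨
    (x ≠ one ∧ y ≠ one ∧ z ≠ one ∧ ¬ Forbidden x y z)

/-- Composition of two elements of the algebra; elements are sets of atoms, the Boolean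
structure is that of `Set (Atom r)`, converse is the identity map and the identity element is
`{one}`. -/
def comp {r : ℕ} (X Y : Set (Atom r)) : Set (Atom r) := {z | ∃ x ∈ X, ∃ y ∈ Y, Below x y z}

/-- A square representation of the algebra on `U`: an embedding into the algebra of all binary
relations on `U` preserving union, complement, composition, converse and identity. -/
structure SquareRep {r : ℕ} {U : Type} (h : Set (Atom r) → Set (U × U)) : Prop where
  inj : Function.Injective h
  union : ∀ X Y, h (X ∪ Y) = h X ∪ h Y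
  compl : ∀ X, h Xᶜ = (h X)ᶜ
  comp : ∀ X Y, h (comp X Y) = {p : U × U | ∃ w : U, (p.1, w) ∈ h X ∧ (w, p.2) ∈ h Y}
  conv : ∀ X, h X = {p : U × U | (p.2, p.1) ∈ h X}
  ident : h {one} = {p : U × U | p.1 = p.2}

/-- The finite part of the spectrum of the algebra. -/
def FinSpec (r : ℕ) : Set ℕ :=
  {n | 0 < n ∧ ∃ h : Set (Atom r) → Set (Fin n × Fin n), SquareRep h}

lemma forbidden_iff {r : ℕ} (x y z : Atom r) : Forbidden x y z ↔
    (x = b ∨ x = c) ∧ (y = b ∨ y = c) ∧ (z = b ∨ z = c) ∧ (x = c ∨ y = c ∨ z = c) := by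
  constructor
  · intro h
    have hx : x ∈ ({x, y, z} : Multiset (Atom r)) := by simp
    have hy : y ∈ ({x, y, z} : Multiset (Atom r)) := by simp
    have hz : z ∈ ({x, y, z} : Multiset (Atom r)) := by simp
    have hc : c ∈ ({x, y, z} : Multiset (Atom r)) := by
      rcases h with h | h | h <;> (rw [h]; simp)
    have key : ∀ w ∈ ({x, y, z} : Multiset (Atom r)), w = b ∨ w = c := by
      intro w hw
      rcases h with h | h | h <;> (rw [h] at hw; simp at hw; tauto)
    refine ⟨key x hx, key y hy, key z hz, ?_⟩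
    simp only [Multiset.insert_eq_cons, Multiset.mem_cons, Multiset.mem_singleton] at hc
    rcases hc with h | h | h
    · exact Or.inl h.symm
    · exact Or.inr (Or.inl h.symm)
    · exact Or.inr (Or.inr h.symm)
  · rintro ⟨hx, hy, hz, h⟩
    have s1 : ∀ u v w : Atom r, ({u, v, w} : Multiset (Atom r)) = {v, u, w} :=
      fun u v w => Multiset.cons_swap _ _ _
    have s2 : ∀ u v w : Atom r, ({u, v, w} : Multiset (Atom r)) = {u, w, v} := fun u v w =>
      congrArg (fun m => u ::ₘ m) (Multiset.pair_comm v w)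
    rcases hx with rfl | rfl <;> rcases hy with rfl | rfl <;> rcases hz with rfl | rfl
    · simp at h
    · exact Or.inr (Or.inr rfl)
    · exact Or.inr (Or.inr (s2 _ _ _))
    · exact Or.inr (Or.inl rfl)
    · exact Or.inr (Or.inr ((s1 _ _ _).trans (s2 _ _ _)))
    · exact Or.inr (Or.inl (s1 _ _ _))
    · exact Or.inr (Or.inl ((s2 _ _ _).trans (s1 _ _ _)))
    · exact Or.inl rfl

/-- A colouring of the pairs of points by atoms with the right triangles gives a representation. -/
lemma squareRep_of {r : ℕ} {U : Type} (t : U → U → Atom r) (hone : ∀ u v, t u v = one ↔ u = v)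
    (hsymm : ∀ u v, t u v = t v u) (htri : ∀ u v w, Below (t u w) (t w v) (t u v))
    (hwit : ∀ u v x y, Below x y (t u v) → ∃ w, t u w = x ∧ t w v = y)
    (hocc : ∀ x, ∃ u v, t u v = x) :
    SquareRep (fun X => {p : U × U | t p.1 p.2 ∈ X}) where
  inj := by
    intro X Y hXY
    ext x
    obtain ⟨u, v, rfl⟩ := hocc x
    have := Set.ext_iff.1 hXY (u, v)
    exact this
  union := fun X Y => rfl
  compl := fun X => rfl
  comp := by
    intro X Y
    ext ⟨u, v⟩
    constructor
    · rintro ⟨x, hx, y, hy, h⟩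
      obtain ⟨w, h1, h2⟩ := hwit u v x y h
      exact ⟨w, by show t u w ∈ X; rw [h1]; exact hx, by show t w v ∈ Y; rw [h2]; exact hy⟩
    · rintro ⟨w, hx, hy⟩
      exact ⟨t u w, hx, t w v, hy, htri u v w⟩
  conv := by
    intro X
    ext ⟨u, v⟩
    show t u v ∈ X ↔ t v u ∈ X
    rw [hsymm]
  ident := by
    ext ⟨u, v⟩
    exact hone u v

open Classical in
/-- the atom of a pair of points -/
noncomputable def at' {r k : ℕ} (f : Sym2 (Pt k) → Fin r) (u v : Pt k) : Atom r :=
  if u = v then one else if CC u.1 v.1 then c else if BB u.1 v.1 then b else a (f s(u, v))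

lemma at_one {r k : ℕ} (f : Sym2 (Pt k) → Fin r) (u v : Pt k) : at' f u v = one ↔ u = v := by
  unfold at'
  split_ifs <;> simp_all

lemma at_c {r k : ℕ} (hk : 0 < k) (f : Sym2 (Pt k) → Fin r) (u v : Pt k) :
    at' f u v = c ↔ CC u.1 v.1 := by
  unfold at'
  by_cases huv : u = v
  · rw [if_pos huv]
    exact ⟨fun h => (by cases h), fun h => absurd (congrArg Subtype.val huv) (ne_of_CC hk (ok u) h)⟩
  · rw [if_neg huv]
    split_ifs <;> simp_all

lemma at_b {r k : ℕ} (hk : 0 < k) (f : Sym2 (Pt k) → Fin r) (u v : Pt k) :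
    at' f u v = b ↔ BB u.1 v.1 := by
  unfold at'
  by_cases huv : u = v
  · rw [if_pos huv]
    exact ⟨fun h => (by cases h), fun h => absurd (congrArg Subtype.val huv) (ne_of_BB hk (ok u) h)⟩
  · rw [if_neg huv]
    by_cases hc : CC u.1 v.1
    · rw [if_pos hc]
      exact ⟨fun h => (by cases h), fun h => absurd h (not_BB_of_CC hc)⟩
    · rw [if_neg hc]
      split_ifs <;> simp_all

lemma at_a {r k : ℕ} (f : Sym2 (Pt k) → Fin r) (u v : Pt k) (i : Fin r) :
    at' f u v = a i ↔ AA u.1 v.1 ∧ f s(u, v) = i := by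
  unfold at'
  by_cases huv : u = v
  · rw [if_pos huv]
    exact ⟨fun h => (by cases h), fun h => absurd (congrArg Subtype.val huv) h.1.1⟩
  · rw [if_neg huv]
    by_cases hc : CC u.1 v.1
    · rw [if_pos hc]
      exact ⟨fun h => (by cases h), fun h => absurd hc h.1.2.2⟩
    · rw [if_neg hc]
      by_cases hb : BB u.1 v.1
      · rw [if_pos hb]
        exact ⟨fun h => (by cases h), fun h => absurd hb h.1.2.1⟩
      · rw [if_neg hb]
        constructor
        · intro h
          exact ⟨⟨fun h' => huv (Subtype.ext h'), hb, hc⟩, by injection h⟩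
        · intro h
          rw [h.2]

lemma at_symm {r k : ℕ} (hk : 0 < k) (f : Sym2 (Pt k) → Fin r) (u v : Pt k) :
    at' f u v = at' f v u := by
  rcases h : at' f u v with _ | i | _ | _
  · exact ((at_one f v u).2 ((at_one f u v).1 h).symm).symm
  · rw [at_a] at h
    exact ((at_a f v u i).2 ⟨AA_symm h.1, by rw [Sym2.eq_swap]; exact h.2⟩).symm
  · rw [at_b hk] at h
    exact ((at_b hk f v u).2 (BB_symm h)).symm
  · rw [at_c hk] at h
    exact ((at_c hk f v u).2 (CC_symm h)).symm

lemma main (r k : ℕ) (hr : 1 ≤ r) (hk : 3 ≤ k) (f : Sym2 (Pt k) → Fin r)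
    (hf : ∀ u v : Pt k, u ≠ v → ∀ i j : Fin r,
      (∃ w : Pt k, AA u.1 w.1 ∧ AA w.1 v.1 ∧ f s(u, w) = i ∧ f s(w, v) = j) ∧
      (∃ w : Pt k, AA u.1 w.1 ∧ BB w.1 v.1 ∧ f s(u, w) = i) ∧
      (∃ w : Pt k, AA u.1 w.1 ∧ CC w.1 v.1 ∧ f s(u, w) = i)) :
    SquareRep (fun X => {p : Pt k × Pt k | at' f p.1 p.2 ∈ X}) := by
  have hk0 : 0 < k := by omega
  have hα : Fintype.card (Fin (3 * k)) = 3 * k := Fintype.card_fin _
  -- atoms starting with `a i`
  have hai : ∀ u v : Pt k, u ≠ v → ∀ (i : Fin r) (y : Atom r), y ≠ one →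
      ∃ w, at' f u w = a i ∧ at' f w v = y := by
    intro u v huv i y hy
    rcases y with _ | j | _ | _
    · exact absurd rfl hy
    · obtain ⟨w, h1, h2, h3, h4⟩ := (hf u v huv i j).1
      exact ⟨w, (at_a f u w i).2 ⟨h1, h3⟩, (at_a f w v j).2 ⟨h2, h4⟩⟩
    · obtain ⟨w, h1, h2, h3⟩ := (hf u v huv i i).2.1
      exact ⟨w, (at_a f u w i).2 ⟨h1, h3⟩, (at_b hk0 f w v).2 h2⟩
    · obtain ⟨w, h1, h2, h3⟩ := (hf u v huv i i).2.2
      exact ⟨w, (at_a f u w i).2 ⟨h1, h3⟩, (at_c hk0 f w v).2 h2⟩
  -- there is a second point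
  have hcard : 1 < Fintype.card (Pt k) := by
    rw [card_Pt]
    have h1 : 0 < (3 * k).choose k := Nat.choose_pos (by omega)
    have h2 : 1 * 1 < 2 * k * (3 * k).choose k := by
      calc 1 * 1 < 2 * k * 1 := by omega
        _ ≤ 2 * k * (3 * k).choose k := Nat.mul_le_mul_left _ h1
    simpa using h2
  have hother : ∀ u : Pt k, ∃ v, v ≠ u := fun u => Fintype.exists_ne_of_one_lt_card hcard u
  have hnb : ∀ (u : Pt k) (x : Atom r), ∃ w, at' f u w = x := by
    intro u x
    by_cases hx : x = one
    · exact ⟨u, by rw [hx]; exact (at_one f u u).2 rfl⟩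
    · obtain ⟨v, hv⟩ := hother u
      obtain ⟨w, -, h2⟩ := hai v u hv ⟨0, hr⟩ x hx
      exact ⟨w, (at_symm hk0 f u w).trans h2⟩
  apply squareRep_of (at' f)
  · exact at_one f
  · exact at_symm hk0 f
  · intro u v w
    by_cases h1 : u = w
    · left
      exact ⟨(at_one f u w).2 h1, by rw [h1]⟩
    by_cases h2 : w = v
    · right; left
      exact ⟨(at_one f w v).2 h2, by rw [h2]⟩
    by_cases h3 : u = v
    · right; right; left
      refine ⟨(at_one f u v).2 h3, ?_⟩
      rw [← h3]
      exact at_symm hk0 f u w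
    right; right; right
    refine ⟨fun h => h1 ((at_one f u w).1 h), fun h => h2 ((at_one f w v).1 h),
      fun h => h3 ((at_one f u v).1 h), fun h => ?_⟩
    rw [forbidden_iff] at h
    simp only [at_b hk0, at_c hk0] at h
    obtain ⟨a1, a2, a3, a4⟩ := h
    have sw : ∀ p q : Pt k, (BB p.1 q.1 ∨ CC p.1 q.1) → (BB q.1 p.1 ∨ CC q.1 p.1) :=
      fun p q h => h.elim (fun h => Or.inl (BB_symm h)) (fun h => Or.inr (CC_symm h))
    rcases a4 with a4 | a4 | a4
    · exact tri hα (ok u) (ok w) (ok v) a4 a3 a2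
    · exact tri hα (ok w) (ok v) (ok u) a4 (sw _ _ a1) (sw _ _ a3)
    · exact tri hα (ok u) (ok v) (ok w) a4 a1 (sw _ _ a2)
  · intro u v x y hxy
    by_cases hx : x = one
    · have hy : y = at' f u v := by
        rcases hxy with h | h | h | h
        · exact h.2
        · rw [h.1, ← h.2, hx]
        · rw [h.1, ← h.2, hx]
        · exact absurd hx h.1
      exact ⟨u, by rw [hx]; exact (at_one f u u).2 rfl, hy.symm⟩
    by_cases hy : y = one
    · have hx' : x = at' f u v := by
        rcases hxy with h | h | h | h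
        · exact absurd h.1 hx
        · exact h.2
        · rw [h.1, h.2, hy]
        · exact absurd hy h.2.1
      exact ⟨v, hx'.symm, by rw [hy]; exact (at_one f v v).2 rfl⟩
    by_cases huv : u = v
    · have h1 : at' f u v = one := (at_one f u v).2 huv
      have hxy' : x = y := by
        rcases hxy with h | h | h | h
        · exact absurd h.1 hx
        · exact absurd h.1 hy
        · exact h.2
        · exact absurd h1 h.2.2.1
      obtain ⟨w, hw⟩ := hnb u x
      exact ⟨w, hw, by rw [← huv, at_symm hk0, hw, hxy']⟩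
    have h1 : at' f u v ≠ one := fun h => huv ((at_one f u v).1 h)
    have hnf : ¬ Forbidden x y (at' f u v) := by
      rcases hxy with h | h | h | h
      · exact absurd h.1 hx
      · exact absurd h.1 hy
      · exact absurd h.1 h1
      · exact h.2.2.2
    rw [forbidden_iff] at hnf
    have huv' : u.1 ≠ v.1 := fun h => huv (Subtype.ext h)
    rcases x with _ | i | _ | _
    · exact absurd rfl hx
    · exact hai u v huv i y hy
    · rcases y with _ | j | _ | _
      · exact absurd rfl hy
      · obtain ⟨w, h2, h3⟩ := hai v u (Ne.symm huv) j b (by simp)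
        exact ⟨w, (at_symm hk0 f u w).trans h3, (at_symm hk0 f w v).trans h2⟩
      · rcases h : at' f u v with _ | i | _ | _
        · exact absurd h h1
        · obtain ⟨w, h2, h3, h4⟩ := wit_bb hk hα (ok u) (ok v) ((at_a f u v i).1 h).1
          exact ⟨⟨w, h2⟩, (at_b hk0 f u _).2 h3, (at_b hk0 f _ v).2 h4⟩
        · obtain ⟨w, h2, h3, h4⟩ := wit_bb_b hk hα (ok u) (ok v) ((at_b hk0 f u v).1 h)
          exact ⟨⟨w, h2⟩, (at_b hk0 f u _).2 h3, (at_b hk0 f _ v).2 h4⟩
        · exact absurd ⟨Or.inl rfl, Or.inl rfl, Or.inr h, Or.inr (Or.inr h)⟩ hnf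
      · rcases h : at' f u v with _ | i | _ | _
        · exact absurd h h1
        · obtain ⟨w, h2, h3, h4⟩ := wit_bc hk hα (ok u) (ok v) ((at_a f u v i).1 h).1
          exact ⟨⟨w, h2⟩, (at_b hk0 f u _).2 h3, (at_c hk0 f _ v).2 h4⟩
        · exact absurd ⟨Or.inl rfl, Or.inr rfl, Or.inl h, Or.inr (Or.inl rfl)⟩ hnf
        · exact absurd ⟨Or.inl rfl, Or.inr rfl, Or.inr h, Or.inr (Or.inl rfl)⟩ hnf
    · rcases y with _ | j | _ | _
      · exact absurd rfl hy
      · obtain ⟨w, h2, h3⟩ := hai v u (Ne.symm huv) j c (by simp)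
        exact ⟨w, (at_symm hk0 f u w).trans h3, (at_symm hk0 f w v).trans h2⟩
      · rcases h : at' f u v with _ | i | _ | _
        · exact absurd h h1
        · obtain ⟨w, h2, h3, h4⟩ := wit_bc hk hα (ok v) (ok u) (AA_symm ((at_a f u v i).1 h).1)
          exact ⟨⟨w, h2⟩, (at_c hk0 f u _).2 (CC_symm h4), (at_b hk0 f _ v).2 (BB_symm h3)⟩
        · exact absurd ⟨Or.inr rfl, Or.inl rfl, Or.inl h, Or.inl rfl⟩ hnf
        · exact absurd ⟨Or.inr rfl, Or.inl rfl, Or.inr h, Or.inl rfl⟩ hnf
      · rcases h : at' f u v with _ | i | _ | _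
        · exact absurd h h1
        · obtain ⟨w, h2, h3, h4⟩ := wit_cc hk hα (ok u) (ok v) ((at_a f u v i).1 h).1
          exact ⟨⟨w, h2⟩, (at_c hk0 f u _).2 h3, (at_c hk0 f _ v).2 h4⟩
        · exact absurd ⟨Or.inr rfl, Or.inr rfl, Or.inl h, Or.inl rfl⟩ hnf
        · exact absurd ⟨Or.inr rfl, Or.inr rfl, Or.inr h, Or.inl rfl⟩ hnf
  · intro x
    have hpos : 0 < Fintype.card (Pt k) := by omega
    obtain ⟨u⟩ := Fintype.card_pos_iff.1 hpos
    obtain ⟨w, hw⟩ := hnb u x
    exact ⟨u, w, hw⟩

/-- Transport of a representation to `Fin n`. -/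
lemma transport {r n : ℕ} {U : Type} [Fintype U] (hn : Fintype.card U = n)
    (t : U → U → Atom r) (h : SquareRep (fun X => {p : U × U | t p.1 p.2 ∈ X})) :
    ∃ h : Set (Atom r) → Set (Fin n × Fin n), SquareRep h := by
  subst hn
  let e : Fin (Fintype.card U) ≃ U := (Fintype.equivFin U).symm
  refine ⟨fun X => {p | t (e p.1) (e p.2) ∈ X}, ?_, fun X Y => rfl, fun X => rfl, ?_, ?_, ?_⟩
  · intro X Y hXY
    apply h.inj
    ext ⟨u, v⟩
    have := Set.ext_iff.1 hXY (e.symm u, e.symm v)
    simpa using this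
  · intro X Y
    ext ⟨i, j⟩
    have := Set.ext_iff.1 (h.comp X Y) (e i, e j)
    refine Iff.trans this ?_
    constructor
    · rintro ⟨w, h1, h2⟩
      exact ⟨e.symm w, by simpa using h1, by simpa using h2⟩
    · rintro ⟨w, h1, h2⟩
      exact ⟨e w, h1, h2⟩
  · intro X
    ext ⟨i, j⟩
    exact Set.ext_iff.1 (h.conv X) (e i, e j)
  · ext ⟨i, j⟩
    have := Set.ext_iff.1 h.ident (e i, e j)
    refine Iff.trans this ?_
    exact e.injective.eq_iff

/-- Let `r ≥ 1`. The integral symmetric relation algebra with atoms `1', a_1, …, a_r, b, c` in which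
exactly the diversity cycles `ccc`, `bcc`, `bbc` are forbidden has square representations on
`2 k (3k choose k)` points for all `k ≥ K`, where `K` depends only on `r`, and `K = 3` for `r = 1`,
the case of `33_65`. -/
theorem result (r : ℕ) (hr : 1 ≤ r) : ∃ K : ℕ, (r = 1 → K = 3) ∧
    ∀ k, K ≤ k → 2 * k * (3 * k).choose k ∈ FinSpec r := by
  obtain ⟨K, h1, h2, h3⟩ := estimate r hr
  refine ⟨K, h1, fun k hk => ?_⟩
  have hk3 : 3 ≤ k := h2.trans hk
  obtain ⟨f, hf⟩ := exists_colouring r hr k hk3 (h3 k hk)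
  refine ⟨Nat.mul_pos (by omega) (Nat.choose_pos (by omega)), ?_⟩
  exact transport (card_Pt k) (at' f) (main r k hr hk3 f hf)

end Pool.Agent.Results.MP_793ea6_al.ManyFlexibleAtoms
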